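import Mathlib
import Pool.Agent.V11199.HP.Manifold

/-!
# MP_e888d6: a non-coisotropic closed submanifold of `ℝ⁶` all of whose packings are countable

We disprove the equivalence asked for in Q1 of MP_e888d6_gt, in `(ℝ⁶, ω₀)` and for a connected
closed submanifold `K` of dimension `4 > 3`.

`K = {F = 0}` for an explicit smooth `F : ℝ⁶ → ℝ²` with `0` a regular value on `K`; it contains
`S¹ × S¹ × D` (`D` the closed unit disc in the third factor of `ℂ × ℂ × ℂ`), along which it is
coisotropic with closed characteristic leaves, and it is not coisotropic elsewhere.  A symplectic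
map that is `C¹`-close to the identity along `S¹ × S¹ × D` has a point of that piece which it maps
into that piece (a generating function argument); since `C¹`-maps on a compact piece form a
separable space, an uncountable packing is impossible.
-/

open Topology Filter Set
open scoped ContDiff
open Pool.Agent.V11199.HP (E omega IsHam)

namespace Pool.Agent.Results.MP_e888d6_gt.CountablePackings

/-- There is a compact connected smooth submanifold `K = {F = 0}` of codimension `2` in the
standard symplectic `ℝ⁶ = ℂ × ℂ × ℂ` (so `dim K = 4 > 3`), whose normal bundle has a nowhere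
vanishing section `ν`, which is not coisotropic, and such that every family of pairwise disjoint
images of `K` under compactly supported Hamiltonian diffeomorphisms is countable. -/
theorem result : ∃ (K : Set E) (F : E → ℝ × ℝ) (ν : E → E),
    ContDiff ℝ ∞ F ∧ ContDiff ℝ ∞ ν ∧ K = {x | F x = 0} ∧ IsCompact K ∧ IsConnected K ∧
    (∀ x ∈ K, Function.Surjective (fderiv ℝ F x)) ∧
    (∀ x ∈ K, fderiv ℝ F x (ν x) ≠ 0) ∧
    (∃ x ∈ K, ∃ v : E, (∀ w : E, fderiv ℝ F x w = 0 → omega v w = 0) ∧ fderiv ℝ F x v ≠ 0) ∧
    ∀ PP : Set (Set E), PP.PairwiseDisjoint id → (∀ A ∈ PP, ∃ φ, IsHam φ ∧ A = φ '' K) →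
      PP.Countable := by
  refine ⟨Pool.Agent.V11199.HP.KK, Pool.Agent.V11199.HP.FF, fun x => (0, x.2.1, 0),
    Pool.Agent.V11199.HP.contDiff_FF, ?_, rfl, Pool.Agent.V11199.HP.isCompact_KK,
    Pool.Agent.V11199.HP.isConnected_KK,
    fun x hx => Pool.Agent.V11199.HP.surjective_fderiv_FF hx, ?_, ?_, ?_⟩
  · exact contDiff_const.prodMk ((contDiff_fst.comp contDiff_snd).prodMk contDiff_const)
  · intro x hx h
    obtain ⟨b1, b2, b3, b4, b5⟩ := Pool.Agent.V11199.HP.KK_bounds hx
    rw [Pool.Agent.V11199.HP.fderiv_FF_second] at h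
    have h1 : 2 * ‖x.2.1‖ ^ 2 = 0 := congrArg Prod.fst h
    linarith
  · refine ⟨Pool.Agent.V11199.HP.x₁, Pool.Agent.V11199.HP.x₁_mem, (1, 0, 0), ?_, ?_⟩
    · intro w hw
      have h1 := Pool.Agent.V11199.HP.fderiv_FF_x₁_snd w
      rw [hw] at h1
      have h2 : (0 : ℝ) < Real.sqrt 3 := Real.sqrt_pos.2 (by norm_num)
      have h3 : w.1.im = 0 := by
        have h4 : 4 * Real.sqrt 3 * w.1.im = 0 := h1.symm
        rcases mul_eq_zero.1 h4 with h5 | h5
        · exact absurd h5 (by positivity)
        · exact h5
      simp [omega, h3]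
    · intro h
      have h1 := Pool.Agent.V11199.HP.fderiv_FF_x₁_fst
      rw [h] at h1
      norm_num at h1
  · intro PP hdis hham
    exact Pool.Agent.V11199.HP.countable_packing Pool.Agent.V11199.HP.CC_subset_KK hdis hham

end Pool.Agent.Results.MP_e888d6_gt.CountablePackings
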